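import Mathlib

namespace Pool.Agent.Results.MP_ebd346_nt.Yes

/-- The triangle with vertices `(0,0)`, `(s,0)`, `(x,h)` has base `s`, altitude `h > 0` and
other edges `a`, `b`. -/
def Tri (s a b : ℕ) (h : ℝ) : Prop :=
  0 < s ∧ 0 < h ∧ ∃ x : ℝ, x ^ 2 + h ^ 2 = (a : ℝ) ^ 2 ∧ ((s : ℝ) - x) ^ 2 + h ^ 2 = (b : ℝ) ^ 2

def Sg (r : ℚ) : Set ℚ := {p | 0 < p ∧ ∃ z : ℚ, 0 < z ∧ z ^ 2 = (p ^ 2 + 1) ^ 2 + r ^ 2 * p ^ 2}

lemma intsq (q : ℚ) (N : ℕ) (hq : 0 < q) (h : q ^ 2 = N) : ∃ z : ℕ, q = z := by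
  have h1 : (q * q).den = q.den * q.den := Rat.mul_self_den q
  rw [← sq, h, Rat.den_natCast] at h1
  have h2 : q.den = 1 := by nlinarith [q.den_pos]
  refine ⟨q.num.toNat, ?_⟩
  have h3 : (0 : ℤ) < q.num := Rat.num_pos.2 hq
  have h4 : ((q.num.toNat : ℕ) : ℚ) = q.num := by
    rw [← Int.cast_natCast, Int.toNat_of_nonneg h3.le]
  rw [h4, (Rat.den_eq_one_iff q).1 h2]

lemma dbl (r p z : ℚ) (hp : 0 < p) (hz : 0 < z) (h1 : p ≠ 1)
    (h : z ^ 2 = (p ^ 2 + 1) ^ 2 + r ^ 2 * p ^ 2) : |p ^ 4 - 1| / (2 * p * z) ∈ Sg r := by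
  have h2 : p ^ 4 - 1 ≠ 0 := fun h2 => h1 (by
    have : p ^ 4 = 1 := by linarith
    exact (pow_eq_one_iff_of_nonneg hp.le (by norm_num)).1 this)
  refine ⟨by positivity, (p ^ 8 + 2 * (2 + r ^ 2) * p ^ 6 + 6 * p ^ 4 + 2 * (2 + r ^ 2) * p ^ 2 + 1) /
    (4 * p ^ 2 * z ^ 2), by positivity, ?_⟩
  rw [div_pow |p ^ 4 - 1|, sq_abs, mul_pow (2 * p), h]
  have : (p ^ 2 + 1) ^ 2 + r ^ 2 * p ^ 2 ≠ 0 := by positivity
  field_simp
  ring

lemma frac (p : ℚ) (hp : 0 < p) : ∃ m n : ℕ, 0 < m ∧ 0 < n ∧ Nat.Coprime m n ∧ p = m / n ∧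
    p.num.toNat = m ∧ p.den = n := by
  have h3 : (0 : ℤ) < p.num := Rat.num_pos.2 hp
  refine ⟨p.num.toNat, p.den, by omega, p.den_pos, ?_, ?_, rfl, rfl⟩
  · have := p.reduced
    rwa [show p.num.natAbs = p.num.toNat by omega] at this
  · have h4 : ((p.num.toNat : ℕ) : ℚ) = p.num := by
      rw [← Int.cast_natCast, Int.toNat_of_nonneg h3.le]
    rw [h4, Rat.num_div_den]

lemma core (u v : ℕ) (hv : 0 < v) (p : ℚ) (hp : p ∈ Sg (u / v)) (h1 : p ≠ 1) :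
    ∃ q ∈ Sg (u / v), ∃ m n m' n' z : ℕ, 0 < m ∧ 0 < n ∧ 0 < m' ∧ 0 < n' ∧ Nat.Coprime m n ∧
      m ≠ n ∧ p.num.toNat = m ∧ p.den = n ∧ q.num.toNat = m' ∧ q.den = n' ∧
      z ^ 2 = v ^ 2 * (m ^ 2 + n ^ 2) ^ 2 + u ^ 2 * (m * n) ^ 2 ∧
      (m' * (2 * (m * n) * z) : ℤ) = n' * v * |(m : ℤ) ^ 4 - n ^ 4| := by
  obtain ⟨hp0, y, hy, h⟩ := hp
  have hq := dbl _ p y hp0 hy h1 h
  obtain ⟨m, n, hm, hn, hc, e, e1, e2⟩ := frac p hp0
  obtain ⟨m', n', hm', hn', -, e', e1', e2'⟩ := frac _ hq.1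
  have hm0 : (0 : ℚ) < m := by exact_mod_cast hm
  have hn0 : (0 : ℚ) < n := by exact_mod_cast hn
  have hn0' : (0 : ℚ) < n' := by exact_mod_cast hn'
  have hv0 : (0 : ℚ) < v := by exact_mod_cast hv
  obtain ⟨z, hz⟩ := intsq (v * n ^ 2 * y) (v ^ 2 * (m ^ 2 + n ^ 2) ^ 2 + u ^ 2 * (m * n) ^ 2)
    (by positivity) (by rw [mul_pow, h, e]; push_cast; field_simp)
  refine ⟨_, hq, m, n, m', n', z, hm, hn, hm', hn', hc, ?_, e1, e2, e1', e2', ?_, ?_⟩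
  · rintro rfl
    exact h1 (by rw [e, div_self hn0.ne'])
  · have : (z : ℚ) ^ 2 = v ^ 2 * (m ^ 2 + n ^ 2) ^ 2 + u ^ 2 * (m * n) ^ 2 := by
      rw [← hz, mul_pow, h, e]; field_simp
    exact_mod_cast this
  · have h2 : |p ^ 4 - 1| = |(m : ℚ) ^ 4 - n ^ 4| / n ^ 4 := by
      rw [e, ← abs_of_pos (pow_pos hn0 4), ← abs_div, abs_of_pos (pow_pos hn0 4)]
      congr 1; field_simp
    rw [h2, div_eq_div_iff (by positivity) hn0'.ne', e] at e'
    have : (m' * (2 * (m * n) * z) : ℚ) = n' * v * |(m : ℚ) ^ 4 - n ^ 4| := by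
      rw [← hz]
      field_simp at e' ⊢
      linarith
    exact_mod_cast this

lemma cop1 (m n : ℕ) (h : Nat.Coprime m n) : IsCoprime ((m : ℤ) * n) |(m : ℤ) ^ 4 - n ^ 4| := by
  have h1 : IsCoprime (m : ℤ) n := Nat.isCoprime_iff_coprime.2 h
  have h2 : IsCoprime ((m : ℤ) * n) ((m : ℤ) ^ 4 - n ^ 4) := by
    refine IsCoprime.mul_left ?_ ?_
    · have : (m : ℤ) ^ 4 - n ^ 4 = -(n : ℤ) ^ 4 + m * m ^ 3 := by ring
      rw [this, IsCoprime.add_mul_left_right_iff, IsCoprime.neg_right_iff]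
      exact h1.pow_right
    · have : (m : ℤ) ^ 4 - n ^ 4 = (m : ℤ) ^ 4 + n * (-n ^ 3) := by ring
      rw [this, IsCoprime.add_mul_left_right_iff]
      exact h1.symm.pow_right
  rcases abs_choice ((m : ℤ) ^ 4 - n ^ 4) with e | e <;> rw [e]
  · exact h2
  · exact h2.neg_right

lemma cop2 (m n : ℕ) (h : Nat.Coprime m n) : IsCoprime ((m : ℤ) ^ 2 + n ^ 2) ((m : ℤ) * n) := by
  have h1 : IsCoprime (m : ℤ) n := Nat.isCoprime_iff_coprime.2 h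
  refine IsCoprime.mul_right ?_ ?_
  · have : (m : ℤ) ^ 2 + n ^ 2 = (n : ℤ) ^ 2 + m * m := by ring
    rw [this, IsCoprime.add_mul_left_left_iff]
    exact h1.symm.pow_left
  · have : (m : ℤ) ^ 2 + n ^ 2 = (m : ℤ) ^ 2 + n * n := by ring
    rw [this, IsCoprime.add_mul_left_left_iff]
    exact h1.pow_left

lemma inf_of (S : Set ℚ) (μ : ℚ → ℕ) (h0 : S.Nonempty) (h : ∀ p ∈ S, ∃ q ∈ S, μ p < μ q) :
    S.Infinite := by
  intro hf
  obtain ⟨p, hp, hm⟩ := Set.exists_max_image S μ hf h0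
  obtain ⟨q, hq, hl⟩ := h p hp
  exact absurd (hm q hq) (not_le.2 hl)

lemma ns1 (k : ℕ) (hk : 0 < k) (z : ℚ) (hz : 0 < z) : z ^ 2 ≠ 4 + ((k : ℚ) / (1 : ℕ)) ^ 2 := by
  intro h
  obtain ⟨y, rfl⟩ := intsq z (4 + k ^ 2) hz (by rw [h]; push_cast; ring)
  have h1 : y ^ 2 = 4 + k ^ 2 := by
    have : (y : ℚ) ^ 2 = 4 + k ^ 2 := by rw [h]; push_cast; ring
    exact_mod_cast this
  have h2 : k < y := by nlinarith
  have h3 : y < k + 2 := by nlinarith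
  have h4 : y = k + 1 := by omega
  subst h4
  have : 2 * k + 1 = 4 := by nlinarith
  omega

lemma ns2 (k : ℕ) (hk : 0 < k) (z : ℚ) (hz : 0 < z) : z ^ 2 ≠ 4 + (((1 : ℕ) : ℚ) / k) ^ 2 := by
  intro h
  have hk0 : (0 : ℚ) < k := by exact_mod_cast hk
  have e : (k * z) ^ 2 = 4 * (k : ℚ) ^ 2 + 1 := by rw [mul_pow, h]; field_simp; norm_num
  obtain ⟨y, hy⟩ := intsq (k * z) (4 * k ^ 2 + 1) (by positivity) (by rw [e]; push_cast; ring)
  have h1 : y ^ 2 = 4 * k ^ 2 + 1 := by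
    rw [hy] at e
    exact_mod_cast e
  have h2 : 2 * k < y := by nlinarith
  nlinarith

lemma ne1 (r : ℚ) (hns : ∀ z : ℚ, 0 < z → z ^ 2 ≠ 4 + r ^ 2) (p : ℚ) (hp : p ∈ Sg r) : p ≠ 1 := by
  rintro rfl
  obtain ⟨-, z, hz, h⟩ := hp
  exact hns z hz (by rw [h]; ring)

lemma inf1 (k : ℕ) (hk : 0 < k) (h0 : (Sg ((k : ℚ) / (1 : ℕ))).Nonempty) :
    (Sg ((k : ℚ) / (1 : ℕ))).Infinite := by
  refine inf_of _ (fun p => p.num.toNat * p.den + p.den) h0 fun p hp => ?_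
  obtain ⟨q, hq, m, n, m', n', z, hm, hn, hm', hn', hc, hne, e1, e2, e1', e2', hz, hE⟩ :=
    core k 1 one_pos p hp (ne1 _ (ns1 k hk) p hp)
  refine ⟨q, hq, ?_⟩
  simp only [e1, e2, e1', e2']
  have h1 : (m : ℤ) * n ∣ n' := by
    refine (cop1 m n hc).dvd_of_dvd_mul_right ⟨m' * 2 * z, ?_⟩
    push_cast at hE; linarith
  obtain ⟨j, hj⟩ : m * n ∣ n' := by exact_mod_cast h1
  have hj0 : 0 < j := by
    rcases Nat.eq_zero_or_pos j with rfl | h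
    · omega
    · exact h
  by_contra hc2
  have a1 : m * n ≤ n' := by rw [hj]; exact Nat.le_mul_of_pos_right _ hj0
  have a2 : n' ≤ m' * n' := Nat.le_mul_of_pos_left _ hm'
  have a3 : n ≤ m * n := Nat.le_mul_of_pos_left _ hm
  have b1 : m * n = n := by omega
  have b2 : n' = n := by omega
  have b3 : m' * n' = n' := by omega
  have c1 : m = 1 := by nlinarith
  have c2 : m' = 1 := by nlinarith
  subst c1 c2 b2
  have hn1 : (n' : ℤ) ≠ 0 := by omega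
  have d1 : (2 * z : ℤ) = |1 - (n' : ℤ) ^ 4| := by
    refine mul_left_cancel₀ hn1 ?_
    push_cast at hE; linarith
  have d2 : (2 * z : ℤ) ^ 2 = (1 - (n' : ℤ) ^ 4) ^ 2 := by rw [d1, sq_abs]
  have d3 : (z : ℤ) ^ 2 = (1 + n' ^ 2) ^ 2 + k ^ 2 * n' ^ 2 := by
    have : ((z ^ 2 : ℕ) : ℤ) = _ := congrArg _ hz
    push_cast at this; linarith
  have d4 : (n' : ℤ) * n' ∣ 3 :=
    ⟨n' ^ 6 - 6 * n' ^ 2 - 8 - 4 * k ^ 2, by linear_combination d2 - 4 * d3⟩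
  have d5 : n' * n' ≤ 3 := by exact_mod_cast Int.le_of_dvd (by norm_num) d4
  have : n' < 2 := by nlinarith
  omega

lemma inf2 (k : ℕ) (hk : 0 < k) (h0 : (Sg (((1 : ℕ) : ℚ) / k)).Nonempty) :
    (Sg (((1 : ℕ) : ℚ) / k)).Infinite := by
  refine inf_of _ (fun p => p.num.toNat + p.den) h0 fun p hp => ?_
  obtain ⟨q, hq, m, n, m', n', z, hm, hn, hm', hn', hc, hne, e1, e2, e1', e2', hz, hE⟩ :=
    core 1 k hk p hp (ne1 _ (ns2 k hk) p hp)
  refine ⟨q, hq, ?_⟩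
  simp only [e1, e2, e1', e2']
  have d3 : (z : ℤ) ^ 2 = (m * n) ^ 2 + (m ^ 2 + n ^ 2) * (k ^ 2 * (m ^ 2 + n ^ 2)) := by
    have : ((z ^ 2 : ℕ) : ℤ) = _ := congrArg _ hz
    push_cast at this; linarith
  have h1 := cop2 m n hc
  have h2 : IsCoprime ((m : ℤ) ^ 2 + n ^ 2) z := by
    have : IsCoprime ((m : ℤ) ^ 2 + n ^ 2) ((z : ℤ) ^ 2) := by
      rw [d3, IsCoprime.add_mul_left_right_iff]; exact h1.pow_right
    exact (IsCoprime.pow_right_iff (by norm_num)).1 this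
  have h3 : (m : ℤ) ^ 2 + n ^ 2 ∣ |(m : ℤ) ^ 4 - n ^ 4| :=
    (dvd_abs _ _).2 ⟨m ^ 2 - n ^ 2, by ring⟩
  have h4 : (m : ℤ) ^ 2 + n ^ 2 ∣ 2 * m' := by
    refine (h1.mul_right h2).dvd_of_dvd_mul_right ?_
    have : (2 * m' * (m * n * z) : ℤ) = n' * k * |(m : ℤ) ^ 4 - n ^ 4| := by linarith
    rw [this]; exact h3.mul_left _
  have h5 : m ^ 2 + n ^ 2 ≤ 2 * m' := by
    exact_mod_cast Int.le_of_dvd (by omega) h4
  obtain ⟨a, rfl⟩ : ∃ a, m = a + 1 := ⟨m - 1, by omega⟩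
  obtain ⟨c, rfl⟩ : ∃ c, n = c + 1 := ⟨n - 1, by omega⟩
  have h6 : 0 < a * a + c * c := by
    rcases Nat.eq_zero_or_pos a with rfl | h
    · have : 0 < c := by omega
      positivity
    · positivity
  nlinarith

lemma start (r x α β : ℚ) (hns : ∀ z : ℚ, 0 < z → z ^ 2 ≠ 4 + r ^ 2)
    (ha : 0 < α) (hb : 0 < β) (h1 : x ^ 2 + 1 = α ^ 2) (h2 : (r - x) ^ 2 + 1 = β ^ 2) :
    (Sg r).Nonempty := by
  have t0 : 0 < x + α := by nlinarith [abs_lt_of_sq_lt_sq' (show x ^ 2 < α ^ 2 by linarith) ha.le]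
  have w0 : 0 < r - x + β := by
    nlinarith [abs_lt_of_sq_lt_sq' (show (r - x) ^ 2 < β ^ 2 by linarith) hb.le]
  set t := x + α with ht
  set w := r - x + β with hw
  have ex : 2 * x * t = t ^ 2 - 1 := by rw [ht]; linear_combination h1
  have ew : 2 * (r - x) * w = w ^ 2 - 1 := by rw [hw]; linear_combination h2
  have hr : r = ((t + w) * (t * w - 1)) / (2 * t * w) := by
    rw [eq_div_iff (by positivity)]; linear_combination w * ex + t * ew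
  have hne : t - w ≠ 0 := by
    intro h
    have e : w = t := by linarith
    refine hns (t + 1 / t) (by positivity) ?_
    rw [hr, e]; field_simp; ring
  have hab : 0 < |t - w| := abs_pos.2 hne
  have key : ((2 * (t * w) * (t * w - 1) ^ 2 - (t + w) ^ 2 * ((t * w) ^ 2 + 1)) /
      (2 * (t * w) * (t - w) ^ 2)) ^ 2 =
      (((t * w + 1) / |t - w|) ^ 2 + 1) ^ 2 + r ^ 2 * ((t * w + 1) / |t - w|) ^ 2 := by
    rw [div_pow (t * w + 1), sq_abs, hr]; field_simp; ring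
  refine ⟨(t * w + 1) / |t - w|, by positivity, |_|, abs_pos.2 fun h => ?_, (sq_abs _).trans key⟩
  rw [h] at key
  have : 0 < (((t * w + 1) / |t - w|) ^ 2 + 1) ^ 2 + r ^ 2 * ((t * w + 1) / |t - w|) ^ 2 := by
    positivity
  rw [← key] at this
  simp at this

lemma prim (r α β : ℚ) (hr : 0 < r) (ha : 0 < α) (hb : 0 < β) : ∃ (s a b : ℕ) (c : ℚ), 0 < c ∧
    (s : ℚ) = c * r ∧ (a : ℚ) = c * α ∧ (b : ℚ) = c * β ∧ Nat.gcd s (Nat.gcd a b) = 1 := by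
  obtain ⟨m1, n1, hm1, hn1, -, e1, -, -⟩ := frac r hr
  obtain ⟨m2, n2, hm2, hn2, -, e2, -, -⟩ := frac α ha
  obtain ⟨m3, n3, hm3, hn3, -, e3, -, -⟩ := frac β hb
  set S := m1 * n2 * n3
  set A := m2 * n1 * n3
  set B := m3 * n1 * n2
  set g := Nat.gcd S (Nat.gcd A B) with hg
  have hS : 0 < S := by positivity
  have g0 : 0 < g := Nat.gcd_pos_of_pos_left _ hS
  obtain ⟨s, hs⟩ : g ∣ S := Nat.gcd_dvd_left _ _
  obtain ⟨a, ha'⟩ : g ∣ A := (Nat.gcd_dvd_right _ _).trans (Nat.gcd_dvd_left _ _)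
  obtain ⟨b, hb'⟩ : g ∣ B := (Nat.gcd_dvd_right _ _).trans (Nat.gcd_dvd_right _ _)
  have g0' : (0 : ℚ) < g := by exact_mod_cast g0
  have n1' : (0 : ℚ) < n1 := by exact_mod_cast hn1
  have n2' : (0 : ℚ) < n2 := by exact_mod_cast hn2
  have n3' : (0 : ℚ) < n3 := by exact_mod_cast hn3
  have q1 : (m1 * n2 * n3 : ℚ) = g * s := by exact_mod_cast hs
  have q2 : (m2 * n1 * n3 : ℚ) = g * a := by exact_mod_cast ha'
  have q3 : (m3 * n1 * n2 : ℚ) = g * b := by exact_mod_cast hb'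
  refine ⟨s, a, b, n1 * n2 * n3 / g, by positivity, ?_, ?_, ?_, ?_⟩
  · rw [e1]; field_simp; linarith
  · rw [e2]; field_simp; linarith
  · rw [e3]; field_simp; linarith
  · have : g * Nat.gcd s (Nat.gcd a b) = g * 1 := by
      rw [← Nat.gcd_mul_left, ← Nat.gcd_mul_left, ← hs, ← ha', ← hb', mul_one]
    exact Nat.eq_of_mul_eq_mul_left g0 this

lemma back (r : ℚ) (hr : 0 < r) (p : ℚ) (hp : p ∈ Sg r) : ∃ s a b : ℕ,
    Nat.gcd s (Nat.gcd a b) = 1 ∧ (∃ h : ℝ, Tri s a b h ∧ s / h = r) ∧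
      (((a : ℚ) + b) / s * r) ^ 2 - r ^ 2 = (p + 1 / p) ^ 2 := by
  obtain ⟨hp0, z, hz, h⟩ := hp
  set U := r * (p ^ 2 - 1) / (2 * (p ^ 2 + 1)) with hU
  set V := z / (2 * p) with hV
  have h1 : r * p < z := by
    refine lt_of_pow_lt_pow_left₀ 2 hz.le ?_
    rw [h, mul_pow]
    have : 0 < (p ^ 2 + 1) ^ 2 := by positivity
    linarith
  have h2 : r / 2 < V := by rw [hV, div_lt_div_iff₀ (by norm_num) (by positivity)]; nlinarith
  have h3 : U < r / 2 := by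
    rw [hU, div_lt_div_iff₀ (by positivity) (by norm_num)]; nlinarith
  have h4 : -(r / 2) < U := by
    rw [hU, lt_div_iff₀ (by positivity)]
    have : 0 < r * p ^ 2 := by positivity
    nlinarith
  obtain ⟨s, a, b, c, hc, e1, e2, e3, hg⟩ := prim r (V + U) (V - U) hr (by linarith) (by linarith)
  set x := r / 2 + z * (p ^ 2 - 1) / (2 * p * (p ^ 2 + 1)) with hx
  have k1 : x ^ 2 + 1 = (V + U) ^ 2 := by
    rw [hx, hU, hV]; field_simp; linear_combination (-4 * p ^ 2) * h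
  have k2 : (r - x) ^ 2 + 1 = (V - U) ^ 2 := by
    rw [hx, hU, hV]; field_simp; linear_combination (-4 * p ^ 2) * h
  have hs : (0 : ℚ) < s := by rw [e1]; positivity
  refine ⟨s, a, b, hg, ⟨c, ⟨by exact_mod_cast hs, by exact_mod_cast hc, (c * x : ℚ), ?_, ?_⟩, ?_⟩, ?_⟩
  · have : (c * x) ^ 2 + c ^ 2 = (a : ℚ) ^ 2 := by rw [e2]; linear_combination c ^ 2 * k1
    exact_mod_cast this
  · have : (s - c * x) ^ 2 + c ^ 2 = (b : ℚ) ^ 2 := by rw [e1, e3]; linear_combination c ^ 2 * k2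
    exact_mod_cast this
  · have : (s : ℚ) / c = r := by rw [e1]; field_simp
    exact_mod_cast this
  · rw [e1, e2, e3, hV]; field_simp; linear_combination 4 * h

lemma main (r : ℚ) (hr : 0 < r) (hns : ∀ z : ℚ, 0 < z → z ^ 2 ≠ 4 + r ^ 2)
    (hinf : (Sg r).Nonempty → (Sg r).Infinite)
    (h0 : ∃ (s a b : ℕ) (h : ℝ), Tri s a b h ∧ s / h = r) :
    {t : ℕ × ℕ × ℕ | Nat.gcd t.1 (Nat.gcd t.2.1 t.2.2) = 1 ∧
      ∃ h : ℝ, Tri t.1 t.2.1 t.2.2 h ∧ t.1 / h = r}.Infinite := by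
  obtain ⟨s, a, b, h, ⟨hs, hh, x, h1, h2⟩, h3⟩ := h0
  have hs' : (0 : ℝ) < s := by exact_mod_cast hs
  have hr' : (0 : ℝ) < r := by exact_mod_cast hr
  have hsq : (0 : ℚ) < s := by exact_mod_cast hs
  have e1 : h = s / r := by rw [← h3]; field_simp
  have e2 : x = (a ^ 2 - b ^ 2 + s ^ 2) / (2 * s) := by
    rw [eq_div_iff (by positivity)]; linear_combination h1 - h2
  have ha : 0 < a := by
    rcases Nat.eq_zero_or_pos a with rfl | h
    · simp at h1; nlinarith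
    · exact h
  have hb : 0 < b := by
    rcases Nat.eq_zero_or_pos b with rfl | h
    · simp at h2; nlinarith
    · exact h
  have hI := hinf (start r ((a ^ 2 - b ^ 2 + s ^ 2) / (2 * s) * r / s) (a * r / s) (b * r / s) hns
    (by positivity) (by positivity) (by
      have : (x * r / s) ^ 2 + 1 = (a * r / s) ^ 2 := by
        rw [e1] at h1; field_simp at h1 ⊢; linarith
      rw [e2] at this; exact_mod_cast this) (by
      have : (r - x * r / s) ^ 2 + 1 = (b * r / s) ^ 2 := by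
        rw [e1] at h2; field_simp at h2 ⊢; linarith
      rw [e2] at this; exact_mod_cast this))
  intro hf
  apply hI
  have hF := hf.image fun t : ℕ × ℕ × ℕ => (((t.2.1 : ℚ) + t.2.2) / t.1 * r) ^ 2 - r ^ 2
  refine Set.Finite.of_finite_fibers (fun p : ℚ => (p + 1 / p) ^ 2) (hF.subset ?_) ?_
  · rintro _ ⟨p, hp, rfl⟩
    obtain ⟨s, a, b, k1, k2, k3⟩ := back r hr p hp
    exact ⟨(s, a, b), ⟨k1, k2⟩, k3⟩
  · rintro _ ⟨p, hp, rfl⟩
    refine (Set.toFinite {p, 1 / p}).subset ?_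
    rintro q ⟨hq, hq2⟩
    have p0 := hp.1
    have q0 := hq.1
    have e : q + 1 / q = p + 1 / p :=
      (pow_left_inj₀ (by positivity) (by positivity) two_ne_zero).1 hq2
    have e' : (q - p) * (q * p - 1) = 0 := by
      field_simp at e; linear_combination e
    rcases mul_eq_zero.1 e' with h | h
    · left; linarith
    · right
      show q = 1 / p
      rw [eq_div_iff p0.ne']; linarith

theorem result (k : ℕ) (hk : 0 < k) :
    ((∃ (s a b : ℕ) (h : ℝ), Tri s a b h ∧ s / h = k) →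
      {t : ℕ × ℕ × ℕ | Nat.gcd t.1 (Nat.gcd t.2.1 t.2.2) = 1 ∧
        ∃ h : ℝ, Tri t.1 t.2.1 t.2.2 h ∧ t.1 / h = k}.Infinite) ∧
    ((∃ (s a b : ℕ) (h : ℝ), Tri s a b h ∧ h / s = k) →
      {t : ℕ × ℕ × ℕ | Nat.gcd t.1 (Nat.gcd t.2.1 t.2.2) = 1 ∧
        ∃ h : ℝ, Tri t.1 t.2.1 t.2.2 h ∧ h / t.1 = k}.Infinite) := by
  have hk' : (0 : ℚ) < k := by exact_mod_cast hk
  constructor
  · intro h0
    have := main ((k : ℚ) / (1 : ℕ)) (by positivity) (ns1 k hk) (inf1 k hk) (by simpa using h0)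
    simpa using this
  · intro h0
    have e : ∀ s h : ℝ, s / h = ((((1 : ℕ) : ℚ) / k : ℚ) : ℝ) ↔ h / s = k := fun s h => by
      push_cast
      rw [← inv_inj, inv_div, inv_div, div_one]
    have := main (((1 : ℕ) : ℚ) / k) (by positivity) (ns2 k hk) (inf2 k hk)
      (by simpa only [e] using h0)
    simpa only [e] using this

end Pool.Agent.Results.MP_ebd346_nt.Yes
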